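import Pool.Agent.H404Z.Urn.Main

namespace Pool.Agent.Results.MP_0b3b8e_pr.ANoMonopoly

open Pool.Agent.H404Z.Urn

/-- For `d = 2` urns with full interaction there are a strong reinforcement sequence `W` and an
initial composition for which monopoly has probability less than one. -/
theorem result : ∃ d : ℕ, 2 ≤ d ∧ ∃ W : ℕ → ℝ, (∀ n, 0 < W n) ∧ (Summable fun n : ℕ => 1 / W (n + 1)) ∧
    ∃ x0 : State d, 1 ≤ black x0 + red x0 ∧ unifArray d (Monopoly W x0) < 1 :=
  ⟨2, le_rfl, Wt, Wt_pos, summable_Wt, (fun _ => 32, fun _ => 32), by simp [black, red], main⟩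

end Pool.Agent.Results.MP_0b3b8e_pr.ANoMonopoly
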